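import Mathlib
import Pool.Agent.H710R2.DP.Defs
import Pool.Agent.H710R2.DP.Defs2
import Pool.Agent.H710R2.DP.Tasks
import Pool.Agent.H710R2.DP.VTasks

open scoped ComplexOrder InnerProductSpace ComplexConjugate
open Finset

noncomputable section

namespace H710R2.DP

open H759R2.Kad

namespace V07

section

variable {H : Type} [NormedAddCommGroup H] [InnerProductSpace ℂ H] [CompleteSpace H]

/-- Matrix units indexed by a finite type. -/
structure MI (M : VonNeumannAlgebra H) (p : H →L[ℂ] H) (ι : Type) [Fintype ι] [DecidableEq ι]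
    (e : ι → ι → (H →L[ℂ] H)) : Prop where
  mem : ∀ i j, e i j ∈ M
  adj : ∀ i j, star (e i j) = e j i
  mul : ∀ i j k l, e i j * e k l = if j = k then e i l else 0
  sum : ∑ i, e i i = p

theorem MI.reindex {M : VonNeumannAlgebra H} {p : H →L[ℂ] H} {ι : Type} [Fintype ι]
    [DecidableEq ι] {e : ι → ι → (H →L[ℂ] H)} (h : MI M p ι e) {L : ℕ} (σ : Fin L ≃ ι) :
    MU M p L (fun i j => e (σ i) (σ j)) where
  mem i j := h.mem _ _
  adj i j := h.adj _ _
  mul i j k l := by
    simp only [h.mul, σ.injective.eq_iff]
  sum := by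
    rw [← h.sum]
    exact σ.sum_comp (fun i => e i i)

theorem left_mul {M : VonNeumannAlgebra H} {p : H →L[ℂ] H} {L : ℕ}
    {e : Fin L → Fin L → (H →L[ℂ] H)} (h : MU M p L e) (i j : Fin L) : p * e i j = e i j := by
  rw [← h.sum, Finset.sum_mul]
  rw [Finset.sum_eq_single i]
  · rw [h.mul, if_pos rfl]
  · intro b _ hb
    rw [h.mul, if_neg hb]
  · intro hh
    exact absurd (Finset.mem_univ i) hh

theorem right_mul {M : VonNeumannAlgebra H} {p : H →L[ℂ] H} {L : ℕ}
    {e : Fin L → Fin L → (H →L[ℂ] H)} (h : MU M p L e) (i j : Fin L) : e i j * p = e i j := by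
  rw [← h.sum, Finset.mul_sum]
  rw [Finset.sum_eq_single j]
  · rw [h.mul, if_pos rfl]
  · intro b _ hb
    rw [h.mul, if_neg (Ne.symm hb)]
  · intro hh
    exact absurd (Finset.mem_univ j) hh

theorem NoAb.sub {M : VonNeumannAlgebra H} {q r : H →L[ℂ] H} (h : NoAb M q) (hr : q * r = r) :
    NoAb M r := by
  intro e he hp hre hab
  refine h e he hp ?_ hab
  calc q * e = q * (r * e) := by rw [hre]
    _ = (q * r) * e := by rw [mul_assoc]
    _ = e := by rw [hr, hre]

theorem half_facts {q v : H →L[ℂ] H} (hq : IsPr q) (hv : v * v = 0)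
    (hs : star v * v + v * star v = q) :
    IsPr (star v * v) ∧ v * (star v * v) = v ∧ q * (star v * v) = star v * v := by
  have hv' : star v * star v = 0 := by
    have := congrArg star hv
    rwa [star_mul, star_zero] at this
  set a := star v * v with ha
  set b := v * star v with hb
  have hab : a * b = 0 := by
    rw [ha, hb]
    calc star v * v * (v * star v) = star v * (v * v) * star v := by noncomm_ring
      _ = 0 := by rw [hv]; simp
  have hba : b * a = 0 := by
    rw [ha, hb]
    calc v * star v * (star v * v) = v * (star v * star v) * v := by noncomm_ring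
      _ = 0 := by rw [hv']; simp
  have hsa : star a = a := by
    rw [ha, star_mul, star_star]
  have h2 : a * a + b * b = a + b := by
    have h3 : (a + b) * (a + b) = a + b := by rw [hs]; exact hq.2
    calc a * a + b * b = (a + b) * (a + b) := by
          rw [add_mul, mul_add, mul_add, hab, hba, add_zero, zero_add]
      _ = a + b := h3
  have h3 : a * a * a = a * a := by
    have h4 := congrArg (fun x => x * a) h2
    simp only [add_mul] at h4
    have h5 : b * b * a = 0 := by rw [mul_assoc, hba, mul_zero]
    rw [h5, hba, add_zero, add_zero] at h4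
    exact h4
  have h4 : a * a = a := by
    have h5 : star (a * a - a) * (a * a - a) = 0 := by
      have : star (a * a - a) = a * a - a := by
        rw [star_sub, star_mul, hsa]
      rw [this]
      calc (a * a - a) * (a * a - a) = a * (a * a * a) - a * a * a - a * a * a + a * a := by
            noncomm_ring
        _ = 0 := by
          rw [h3, ← mul_assoc, h3]
          abel
    have h6 := CStarRing.star_mul_self_eq_zero_iff (a * a - a) |>.1 h5
    exact sub_eq_zero.1 h6
  have h5 : v * a = v := by
    have h6 : star (v * a - v) * (v * a - v) = 0 := by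
      have : star (v * a - v) = a * star v - star v := by
        rw [star_sub, star_mul, hsa]
      rw [this]
      calc (a * star v - star v) * (v * a - v)
          = a * (star v * v) * a - a * (star v * v) - (star v * v) * a + star v * v := by
            noncomm_ring
        _ = a * a * a - a * a - a * a + a := by rw [← ha]
        _ = 0 := by
          rw [h3, h4]
          abel
    have h7 := CStarRing.star_mul_self_eq_zero_iff (v * a - v) |>.1 h6
    exact sub_eq_zero.1 h7
  refine ⟨⟨hsa, h4⟩, h5, ?_⟩
  rw [← hs, add_mul, hba, h4, add_zero]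

theorem mu_zero (M : VonNeumannAlgebra H) (q : H →L[ℂ] H) (hq : q ∈ M) (hp : IsPr q) :
    MU M q (2 ^ 0) (fun _ _ => q) where
  mem _ _ := hq
  adj _ _ := hp.1
  mul i j k l := by
    haveI : Subsingleton (Fin (2 ^ 0)) := by rw [pow_zero]; infer_instance
    rw [if_pos (Subsingleton.elim _ _), hp.2]
  sum := by
    rw [Finset.sum_const, Finset.card_univ, Fintype.card_fin, pow_zero, one_smul]

/-- The two legs. -/
def leg (q1 v : H →L[ℂ] H) (a : Fin 2) : H →L[ℂ] H := if a = 0 then q1 else v

theorem step_mi {M : VonNeumannAlgebra H} {q v : H →L[ℂ] H} (hvM : v ∈ M) (hq : IsPr q)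
    (hv : v * v = 0) (hs : star v * v + v * star v = q) {L : ℕ}
    {g : Fin L → Fin L → (H →L[ℂ] H)} (hg : MU M (star v * v) L g) :
    MI M q (Fin 2 × Fin L)
      (fun x y => leg (star v * v) v x.1 * g x.2 y.2 * star (leg (star v * v) v y.1)) := by
  obtain ⟨⟨h1, h2⟩, h3, h4⟩ := half_facts hq hv hs
  have hv' : star v * star v = 0 := by
    have := congrArg star hv
    rwa [star_mul, star_zero] at this
  have hvM' : star v ∈ M := star_mem hvM
  have hqM : star v * v ∈ M := mul_mem hvM' hvM
  have hlegM : ∀ a, leg (star v * v) v a ∈ M := by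
    intro a
    unfold leg
    split_ifs
    · exact hqM
    · exact hvM
  have hleg : ∀ a b, star (leg (star v * v) v a) * leg (star v * v) v b =
      if a = b then star v * v else 0 := by
    intro a b
    have h5 : star v * v * v = 0 := by rw [mul_assoc, hv, mul_zero]
    have h6 : star v * (star v * v) = 0 := by rw [← mul_assoc, hv', zero_mul]
    fin_cases a <;> fin_cases b <;> simp [leg, h2, h5, h6]
  refine ⟨?_, ?_, ?_, ?_⟩
  · intro x y
    exact mul_mem (mul_mem (hlegM _) (hg.mem _ _)) (star_mem (hlegM _))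
  · intro x y
    rw [star_mul, star_mul, star_star, hg.adj, mul_assoc]
  · intro x y z w
    have h5 : leg (star v * v) v x.1 * g x.2 y.2 * star (leg (star v * v) v y.1) *
        (leg (star v * v) v z.1 * g z.2 w.2 * star (leg (star v * v) v w.1)) =
        leg (star v * v) v x.1 * (g x.2 y.2 * ((star (leg (star v * v) v y.1) *
        leg (star v * v) v z.1) * g z.2 w.2)) * star (leg (star v * v) v w.1) := by
      simp only [mul_assoc]
    show leg (star v * v) v x.1 * g x.2 y.2 * star (leg (star v * v) v y.1) *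
        (leg (star v * v) v z.1 * g z.2 w.2 * star (leg (star v * v) v w.1)) = _
    rw [h5, hleg]
    by_cases h6 : y.1 = z.1
    · rw [if_pos h6, left_mul hg, hg.mul]
      by_cases h7 : y.2 = z.2
      · rw [if_pos h7, if_pos (Prod.ext h6 h7)]
      · rw [if_neg h7, if_neg (fun h => h7 (congrArg Prod.snd h))]
        simp
    · rw [if_neg h6, if_neg (fun h => h6 (congrArg Prod.fst h))]
      simp
  · rw [Fintype.sum_prod_type, Fin.sum_univ_two]
    simp only [← Finset.mul_sum, ← Finset.sum_mul, hg.sum]
    simp only [leg, if_true, one_ne_zero, if_false]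
    rw [h1, h2, h2, h3, hs]

end

end V07

theorem dp_Vmu (h1 : V_half) : V_mu := by
  intro H _ _ _ M q hq hp hn k
  induction k generalizing q with
  | zero => exact ⟨_, V07.mu_zero M q hq hp⟩
  | succ k ih =>
    obtain ⟨v, hvM, hv, hs⟩ := h1 H M q hq hp hn
    obtain ⟨h2, h3, h4⟩ := V07.half_facts hp hv hs
    obtain ⟨g, hg⟩ := ih (star v * v) (mul_mem (star_mem hvM) hvM) h2 (V07.NoAb.sub hn h4)
    have h5 := V07.step_mi hvM hp hv hs hg
    exact ⟨_, h5.reindex ((finProdFinEquiv.trans (finCongr (pow_succ' 2 k).symm)).symm)⟩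

theorem dp_VB1 (h1 : V_mu) : V_B1 := by
  intro H _ _ _ M p hp hn L₀
  refine ⟨2 ^ L₀, Nat.lt_two_pow_self.le, ?_⟩
  obtain ⟨e, he⟩ := h1 H M p hp.2.1 hp.1 hn L₀
  refine ⟨e, he, ?_⟩
  intro K₀
  refine ⟨2 ^ K₀, Nat.lt_two_pow_self.le, ?_⟩
  set o : Fin (2 ^ L₀) := ⟨0, by positivity⟩ with ho
  have h2 : IsPr (e o o) := ⟨he.adj o o, by rw [he.mul, if_pos rfl]⟩
  obtain ⟨g, hg⟩ := h1 H M (e o o) (he.mem o o) h2 (V07.NoAb.sub hn (V07.left_mul he o o)) K₀
  refine ⟨fun a b => ∑ i, e i o * g a b * e o i, ⟨?_, ?_, ?_, ?_⟩, ?_⟩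
  · intro a b
    exact sum_mem fun i _ => mul_mem (mul_mem (he.mem _ _) (hg.mem _ _)) (he.mem _ _)
  · intro a b
    rw [star_sum]
    refine Finset.sum_congr rfl fun i _ => ?_
    rw [star_mul, star_mul, he.adj, he.adj, hg.adj, mul_assoc]
  · intro a b c d
    have h3 : ∀ i j : Fin (2 ^ L₀), e i o * g a b * e o i * (e j o * g c d * e o j) =
        if i = j then (if b = c then e i o * g a d * e o i else 0) else 0 := by
      intro i j
      have h4 : e i o * g a b * e o i * (e j o * g c d * e o j) =
          e i o * (g a b * ((e o i * e j o) * g c d)) * e o j := by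
        simp only [mul_assoc]
      rw [h4, he.mul]
      by_cases h5 : i = j
      · rw [if_pos h5, if_pos h5, V07.left_mul hg, hg.mul, h5]
        by_cases h6 : b = c
        · rw [if_pos h6, if_pos h6]
        · rw [if_neg h6, if_neg h6]
          simp
      · rw [if_neg h5, if_neg h5]
        simp
    show (∑ i, e i o * g a b * e o i) * (∑ i, e i o * g c d * e o i) = _
    rw [Finset.sum_mul_sum]
    simp only [h3, Finset.sum_ite_eq, Finset.mem_univ, if_true]
    by_cases h6 : b = c
    · simp only [if_pos h6]
    · simp only [if_neg h6, Finset.sum_const_zero]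
  · rw [Finset.sum_comm]
    simp only [← Finset.mul_sum, ← Finset.sum_mul, hg.sum]
    rw [← he.sum]
    refine Finset.sum_congr rfl fun i _ => ?_
    rw [he.mul, if_pos rfl, he.mul, if_pos rfl]
  · intro i j a b
    show e i j * (∑ l, e l o * g a b * e o l) = (∑ l, e l o * g a b * e o l) * e i j
    rw [Finset.mul_sum, Finset.sum_mul]
    rw [Finset.sum_eq_single j, Finset.sum_eq_single i]
    · rw [← mul_assoc, ← mul_assoc, he.mul, if_pos rfl, mul_assoc (e i o * g a b), he.mul,
        if_pos rfl]
    · intro l _ hl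
      rw [mul_assoc (e l o * g a b), he.mul, if_neg hl, mul_zero]
    · intro hh
      exact absurd (Finset.mem_univ i) hh
    · intro l _ hl
      rw [← mul_assoc, ← mul_assoc, he.mul, if_neg (Ne.symm hl), zero_mul, zero_mul]
    · intro hh
      exact absurd (Finset.mem_univ j) hh

end H710R2.DP
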